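import Pool.Agent.N102.FL.LStm

/-!
Project FL2 (helper102), part WT (helper169): integral weights with the same order on finitely many
monomials as a valuation. Fourier-Motzkin elimination over an ordered group.
-/

set_option autoImplicit false

universe u

namespace Pool.Agent.N169.FL.WT

open Pool.Agent.N102.FL

/-- Fourier-Motzkin elimination in an ordered group -/
theorem fm {Γ : Type u} [AddCommGroup Γ] [LinearOrder Γ] [IsOrderedAddMonoid Γ] (n : ℕ) :
    ∀ (g : Fin n → Γ) (P : Finset (Fin n → ℤ)), (∀ d ∈ P, 0 < ∑ j, d j • g j) →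
      ∃ l : Fin n → ℚ, ∀ d ∈ P, 0 < ∑ j, l j * d j := by
  classical
  induction n with
  | zero =>
    intro g P hP
    refine ⟨0, fun d hd => ?_⟩
    have := hP d hd
    simp at this
  | succ n ih =>
    intro g P hP
    have hsum : ∀ d : Fin (n + 1) → ℤ, ∑ j, d j • g j =
        ∑ j : Fin n, d (Fin.castSucc j) • g (Fin.castSucc j) + d (Fin.last n) • g (Fin.last n) := by
      intro d
      rw [Fin.sum_univ_castSucc]
    let P0 : Finset (Fin n → ℤ) :=
      (P.filter fun a => a (Fin.last n) = 0).image fun a j => a (Fin.castSucc j)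
    let P1 : Finset (Fin n → ℤ) :=
      (((P.filter fun a => 0 < a (Fin.last n)) ×ˢ (P.filter fun a => a (Fin.last n) < 0))).image
        fun q j => -q.2 (Fin.last n) * q.1 (Fin.castSucc j) +
          q.1 (Fin.last n) * q.2 (Fin.castSucc j)
    obtain ⟨l, hl⟩ := ih (fun j => g (Fin.castSucc j)) (P0 ∪ P1) (by
      intro d hd
      rcases Finset.mem_union.1 hd with hd | hd
      · obtain ⟨a, ha, rfl⟩ := Finset.mem_image.1 hd
        obtain ⟨ha1, ha2⟩ := Finset.mem_filter.1 ha
        have h1 := hP a ha1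
        rw [hsum, ha2, zero_smul, add_zero] at h1
        exact h1
      · obtain ⟨⟨a, a'⟩, ha, rfl⟩ := Finset.mem_image.1 hd
        obtain ⟨ha1, ha2⟩ := Finset.mem_product.1 ha
        obtain ⟨ha3, ha4⟩ := Finset.mem_filter.1 ha1
        obtain ⟨ha5, ha6⟩ := Finset.mem_filter.1 ha2
        simp only at ha3 ha4 ha5 ha6 ⊢
        have h1 := hP a ha3
        have h2 := hP a' ha5
        have h3 : ∑ j : Fin n, (-a' (Fin.last n) * a (Fin.castSucc j) +
            a (Fin.last n) * a' (Fin.castSucc j)) • g (Fin.castSucc j) =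
            (-a' (Fin.last n)) • (∑ j, a j • g j) + a (Fin.last n) • (∑ j, a' j • g j) := by
          rw [hsum, hsum, smul_add, smul_add, Finset.smul_sum, Finset.smul_sum]
          simp only [add_smul, mul_smul, Finset.sum_add_distrib]
          have h4 : (-a' (Fin.last n)) • a (Fin.last n) • g (Fin.last n) +
              a (Fin.last n) • a' (Fin.last n) • g (Fin.last n) = 0 := by
            rw [← mul_smul, ← mul_smul, ← add_smul]
            have : -a' (Fin.last n) * a (Fin.last n) + a (Fin.last n) * a' (Fin.last n) = 0 := by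
              ring
            rw [this, zero_smul]
          rw [add_add_add_comm, h4, add_zero]
        rw [h3]
        exact add_pos (zsmul_pos h1 (by omega)) (zsmul_pos h2 ha4))
    let f : (Fin (n + 1) → ℤ) → ℚ := fun a => ∑ j : Fin n, l j * a (Fin.castSucc j)
    have hf0 : ∀ a ∈ P, a (Fin.last n) = 0 → 0 < f a := by
      intro a ha h0
      exact hl _ (Finset.mem_union_left _ (Finset.mem_image.2
        ⟨a, Finset.mem_filter.2 ⟨ha, h0⟩, rfl⟩))
    have hf1 : ∀ a ∈ P, ∀ a' ∈ P, 0 < a (Fin.last n) → a' (Fin.last n) < 0 →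
        0 < (-a' (Fin.last n) : ℚ) * f a + a (Fin.last n) * f a' := by
      intro a ha a' ha' h0 h0'
      have h1 := hl _ (Finset.mem_union_right _ (Finset.mem_image.2
        ⟨(a, a'), Finset.mem_product.2 ⟨Finset.mem_filter.2 ⟨ha, h0⟩,
          Finset.mem_filter.2 ⟨ha', h0'⟩⟩, rfl⟩))
      have h2 : (-a' (Fin.last n) : ℚ) * f a + a (Fin.last n) * f a' =
          ∑ j : Fin n, l j * ((-a' (Fin.last n) * a (Fin.castSucc j) +
            a (Fin.last n) * a' (Fin.castSucc j) : ℤ) : ℚ) := by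
        simp only [f]
        rw [Finset.mul_sum, Finset.mul_sum, ← Finset.sum_add_distrib]
        refine Finset.sum_congr rfl fun j _ => ?_
        push_cast
        ring
      rw [h2]
      exact h1
    obtain ⟨t, ht1, ht2⟩ := Order.exists_between_finsets
      ((P.filter fun a => 0 < a (Fin.last n)).image fun a => -f a / a (Fin.last n))
      ((P.filter fun a => a (Fin.last n) < 0).image fun a => f a / (-a (Fin.last n))) (by
        intro x hx z hz
        obtain ⟨a, ha, rfl⟩ := Finset.mem_image.1 hx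
        obtain ⟨a', ha', rfl⟩ := Finset.mem_image.1 hz
        obtain ⟨ha3, ha4⟩ := Finset.mem_filter.1 ha
        obtain ⟨ha5, ha6⟩ := Finset.mem_filter.1 ha'
        have h1 := hf1 a ha3 a' ha5 ha4 ha6
        have h4 : (0 : ℚ) < a (Fin.last n) := by exact_mod_cast ha4
        have h6 : (0 : ℚ) < -a' (Fin.last n) := by
          have : (a' (Fin.last n) : ℚ) < 0 := by exact_mod_cast ha6
          linarith
        rw [div_lt_div_iff₀ h4 h6]
        linarith)
    refine ⟨Fin.snoc l t, fun d hd => ?_⟩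
    rw [Fin.sum_univ_castSucc]
    simp only [Fin.snoc_castSucc, Fin.snoc_last]
    rcases lt_trichotomy (d (Fin.last n)) 0 with h | h | h
    · have h1 := ht2 _ (Finset.mem_image.2 ⟨d, Finset.mem_filter.2 ⟨hd, h⟩, rfl⟩)
      have h6 : (0 : ℚ) < -d (Fin.last n) := by
        have : (d (Fin.last n) : ℚ) < 0 := by exact_mod_cast h
        linarith
      rw [lt_div_iff₀ h6] at h1
      simp only [f] at h1
      linarith
    · have h1 := hf0 d hd h
      rw [h, Int.cast_zero, mul_zero, add_zero]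
      exact h1
    · have h1 := ht1 _ (Finset.mem_image.2 ⟨d, Finset.mem_filter.2 ⟨hd, h⟩, rfl⟩)
      have h6 : (0 : ℚ) < d (Fin.last n) := by exact_mod_cast h
      rw [div_lt_iff₀ h6] at h1
      simp only [f] at h1
      linarith

/-- clearing denominators -/
theorem fm' {Γ : Type u} [AddCommGroup Γ] [LinearOrder Γ] [IsOrderedAddMonoid Γ] {n : ℕ}
    (g : Fin n → Γ) (P : Finset (Fin n → ℤ)) (hP : ∀ d ∈ P, 0 < ∑ j, d j • g j) :
    ∃ l : Fin n → ℤ, ∀ d ∈ P, 0 < ∑ j, l j * d j := by
  obtain ⟨l, hl⟩ := fm n g P hP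
  let D : ℤ := ∏ j, ((l j).den : ℤ)
  have hD : 0 < D := Finset.prod_pos fun j _ => by exact_mod_cast (l j).den_pos
  have h1 : ∀ j, ∃ z : ℤ, (z : ℚ) = D * l j := by
    intro j
    obtain ⟨c, hc⟩ : ((l j).den : ℤ) ∣ D := Finset.dvd_prod_of_mem _ (Finset.mem_univ j)
    refine ⟨c * (l j).num, ?_⟩
    rw [hc]
    push_cast
    have h2 : ((l j).den : ℚ) * l j = (l j).num := Rat.den_mul_eq_num (l j)
    rw [mul_comm ((l j).den : ℚ), mul_assoc, h2]
  choose z hz using h1
  refine ⟨z, fun d hd => ?_⟩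
  have h3 := hl d hd
  have h4 : ((∑ j, z j * d j : ℤ) : ℚ) = D * ∑ j, l j * d j := by
    push_cast
    rw [Finset.mul_sum]
    refine Finset.sum_congr rfl fun j _ => ?_
    rw [hz]
    ring
  have h5 : (0 : ℚ) < ((∑ j, z j * d j : ℤ) : ℚ) := by
    rw [h4]
    exact mul_pos (by exact_mod_cast hD) h3
  exact_mod_cast h5

/-- a functional which is positive on finitely many positive elements -/
theorem exists_functional {Γ : Type u} [AddCommGroup Γ] [LinearOrder Γ] [IsOrderedAddMonoid Γ]
    {J : Type} [Fintype J] (x : J → Γ) (P : Finset (J → ℤ)) (hP : ∀ d ∈ P, 0 < ∑ j, d j • x j) :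
    ∃ l : J → ℤ, (∀ d ∈ P, 0 < ∑ j, l j * d j) ∧
      ∀ d : J → ℤ, ∑ j, d j • x j = 0 → ∑ j, l j * d j = 0 := by
  classical
  let G : Submodule ℤ Γ := Submodule.span ℤ (Set.range x)
  have : Module.Finite ℤ G := Module.Finite.span_of_finite ℤ (Set.finite_range x)
  have : Module.Free ℤ G := Module.free_of_finite_type_torsion_free'
  let b := Module.finBasis ℤ G
  let X : J → G := fun j => ⟨x j, Submodule.subset_span ⟨j, rfl⟩⟩
  let w : (J → ℤ) → G := fun d => ∑ j, d j • X j
  have hw : ∀ d, ((w d : G) : Γ) = ∑ j, d j • x j := by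
    intro d
    simp only [w, X]
    rw [Submodule.coe_sum]
    rfl
  obtain ⟨l, hl⟩ := fm' (fun i => ((b i : G) : Γ)) (P.image fun d i => b.repr (w d) i) (by
    intro c hc
    obtain ⟨d, hd, rfl⟩ := Finset.mem_image.1 hc
    have h1 := hP d hd
    rw [← hw, ← b.sum_repr (w d), Submodule.coe_sum] at h1
    exact h1)
  have hlin : ∀ d : J → ℤ, ∑ j, (∑ i, l i * b.repr (X j) i) * d j = ∑ i, l i * b.repr (w d) i := by
    intro d
    simp only [w]
    rw [map_sum]
    simp only [Finset.sum_mul, Finsupp.coe_finsetSum, Finset.sum_apply, map_smul,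
      Finsupp.smul_apply, smul_eq_mul, Finset.mul_sum]
    rw [Finset.sum_comm]
    refine Finset.sum_congr rfl fun i _ => Finset.sum_congr rfl fun j _ => ?_
    ring
  refine ⟨fun j => ∑ i, l i * b.repr (X j) i, ?_, ?_⟩
  · intro d hd
    rw [hlin]
    exact hl _ (Finset.mem_image.2 ⟨d, hd, rfl⟩)
  · intro d hd
    rw [hlin]
    have : w d = 0 := Subtype.ext (by rw [hw, hd]; rfl)
    rw [this, map_zero]
    simp

theorem t_wt : S_WT.{u} := by
  classical
  intro K _ V J _ y hy S
  have hv : ∀ j, V.valuation (y j) ≠ 0 := fun j => (Valuation.ne_zero_iff _).2 (hy j)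
  let x : J → Additive (V.ValueGroup)ˣ := fun j => Additive.ofMul (Units.mk0 _ (hv j))
  have hx : ∀ m : J → ℤ, ((Additive.toMul (∑ j, m j • x j) : (V.ValueGroup)ˣ) : V.ValueGroup) =
      V.valuation (∏ j, y j ^ m j) := by
    intro m
    rw [toMul_sum, Units.coe_prod, map_prod]
    refine Finset.prod_congr rfl fun j _ => ?_
    rw [toMul_zsmul, map_zpow₀]
    simp [x]
  have hle : ∀ m m' : J → ℤ, V.valuation (∏ j, y j ^ m' j) ≤ V.valuation (∏ j, y j ^ m j) ↔
      ∑ j, m' j • x j ≤ ∑ j, m j • x j := by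
    intro m m'
    rw [← hx, ← hx]
    exact Iff.rfl
  obtain ⟨l, hl1, hl2⟩ := exists_functional x
    (((S ×ˢ S).filter fun q => ∑ j, q.2 j • x j < ∑ j, q.1 j • x j).image fun q => q.1 - q.2) (by
      intro d hd
      obtain ⟨⟨m, m'⟩, hq, rfl⟩ := Finset.mem_image.1 hd
      obtain ⟨-, hlt⟩ := Finset.mem_filter.1 hq
      simp only [Pi.sub_apply, sub_smul, Finset.sum_sub_distrib]
      exact sub_pos.2 hlt)
  have hl1' : ∀ m ∈ S, ∀ m' ∈ S, ∑ j, m' j • x j < ∑ j, m j • x j →
      ∑ j, l j * m' j < ∑ j, l j * m j := by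
    intro m hm m' hm' hlt
    have := hl1 (m - m') (Finset.mem_image.2 ⟨(m, m'), Finset.mem_filter.2
      ⟨Finset.mem_product.2 ⟨hm, hm'⟩, hlt⟩, rfl⟩)
    simp only [Pi.sub_apply, mul_sub, Finset.sum_sub_distrib] at this
    omega
  refine ⟨fun j => -l j, fun m hm m' hm' => ?_⟩
  rw [hle]
  simp only [neg_mul, Finset.sum_neg_distrib, neg_le_neg_iff]
  constructor
  · intro h
    by_contra hlt
    exact absurd (hl1' m' hm' m hm (not_le.1 hlt)) (not_lt.2 h)
  · intro h
    rcases h.lt_or_eq with h | h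
    · exact (hl1' m hm m' hm' h).le
    · have := hl2 (m - m') (by
        simp only [Pi.sub_apply, sub_smul, Finset.sum_sub_distrib]
        rw [h, sub_self])
      simp only [Pi.sub_apply, mul_sub, Finset.sum_sub_distrib] at this
      omega

end Pool.Agent.N169.FL.WT
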